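import Mathlib
import Pool.Agent.H984R3.ConvDefs
import Pool.Agent.H984R3.LDim
import Pool.Agent.W225.CG.Geom
import Pool.Agent.W225.CG.BDim

/-!
# Local dimension, Boolean dimension, standard examples and fractional dimension of the convex
geometries of ordered data

(helper350) Sharper bounds for the geometries of `Pool/Agent/W225/CG`: the wall letters are
reversed by the same linear extensions as the coordinates, so the local dimension is at most
`|I| + 2` and the Boolean dimension at most `|I| + 4`; no standard example with more than `|I| + 2`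
pairs occurs; the fractional dimension is at least the fractional chromatic number of the adjacency.
-/

namespace Pool.Agent.Y350.CG

open Pool.Agent.H984R3.ConvDefs Pool.Agent.W225.CG

/-- `P` has fractional dimension at most `t` (Brightwell and Scheinerman): `1 ≤ t` and there is a
nonempty finite family of linear extensions of `P` such that for all incomparable `x`, `y` the
relation `x < y` holds in at least a `1/t`-fraction of them. -/
def FracDimLE (P : Type) [PartialOrder P] (t : ℝ) : Prop :=
  1 ≤ t ∧ ∃ m : ℕ, 0 < m ∧ ∃ L : Fin m → P → P → Prop,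
    (∀ i, IsPartialLinearExtension Set.univ (L i)) ∧
    ∀ x y : P, ¬ x ≤ y → ¬ y ≤ x → (m : ℝ) ≤ t * ({i : Fin m | L i x y}.ncard : ℝ)

/-- `P` contains elements `a_i`, `b_i` (`i < n`) with `a_i ≤ b_j` exactly when `i ≠ j`. -/
def HasStandardExample (P : Type) [PartialOrder P] (n : ℕ) : Prop :=
  ∃ a b : Fin n → P, ∀ i j, a i ≤ b j ↔ i ≠ j

variable {I W K : Type} [LinearOrder K] (D : Data I W K)

open Classical in
/-- the key of a coordinate: the size of the up-set and the letter at the wall -/
noncomputable def kap (a : I) (x : D.closed) : ℕ :=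
  2 * (J a x.1).ncard + (if ∃ w, IsWall D a x.1 w ∧ (Sum.inl w : X I W) ∈ x.1 then 1 else 0)

theorem kap_mono [Finite W] (a : I) {x y : D.closed} (h : x ≤ y) : kap D a x ≤ kap D a y := by
  unfold kap
  by_cases hJ : J a x.1 = J a y.1
  · rw [hJ]
    by_cases h1 : ∃ w, IsWall D a x.1 w ∧ (Sum.inl w : X I W) ∈ x.1
    · obtain ⟨w, hw, hwx⟩ := h1
      have h2 : ∃ w, IsWall D a y.1 w ∧ (Sum.inl w : X I W) ∈ y.1 :=
        ⟨w, ⟨hJ ▸ hw.1, fun u hu => hJ ▸ hw.2 u hu⟩, h hwx⟩
      rw [if_pos h2]
      split_ifs <;> omega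
    · rw [if_neg h1]
      omega
  · have hlt : (J a x.1).ncard < (J a y.1).ncard :=
      Set.ncard_lt_ncard ((J_mono h).ssubset_of_ne hJ) (Set.toFinite _)
    split_ifs <;> omega

/-- If `x` is not below `y`, this is seen by a coordinate or by a common box letter. -/
theorem dich [Finite W] {x y : D.closed} (hxy : ¬ x ≤ y) :
    (∃ a, kap D a y < kap D a x) ∨
    (∃ w, (∀ a, J a x.1 ⊆ J a y.1) ∧ w ∈ Bt D x.1 ∧ w ∈ Bt D y.1 ∧
      (Sum.inl w : X I W) ∈ x.1 ∧ (Sum.inl w : X I W) ∉ y.1) := by
  by_cases h : ∃ a, ¬ J a x.1 ⊆ J a y.1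
  · left
    obtain ⟨a, ha⟩ := h
    refine ⟨a, ?_⟩
    obtain ⟨v, hv1, hv2⟩ := Set.not_subset.1 ha
    have hsub : J a y.1 ⊆ J a x.1 := by
      intro u hu
      have : D.key a v ≤ D.key a u := by
        by_contra hcon
        rw [not_le] at hcon
        exact hv2 (y.2.1 a u v hcon.le hu)
      exact x.2.1 a v u this hv1
    have hlt : (J a y.1).ncard < (J a x.1).ncard :=
      Set.ncard_lt_ncard ⟨hsub, ha⟩ (Set.toFinite _)
    unfold kap
    split_ifs <;> omega
  · push Not at h
    have h2 : ∃ w, (Sum.inl w : X I W) ∈ x.1 ∧ (Sum.inl w : X I W) ∉ y.1 := by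
      by_contra hcon
      push Not at hcon
      apply hxy
      intro z hz
      rcases z with w | ⟨a, v⟩
      · exact hcon w hz
      · exact h a hz
    obtain ⟨w, hwx, hwy⟩ := h2
    have hJx : ∀ a, w ∈ J a x.1 := fun a => x.2.2.1 w hwx a
    have hJy : ∀ a, w ∈ J a y.1 := fun a => h a (hJx a)
    rcases y.2.2.2 w hwy with ⟨a, ha⟩ | hbx
    · left
      refine ⟨a, ?_⟩
      have hJ : J a x.1 = J a y.1 := by
        refine subset_antisymm (h a) ?_
        intro u hu
        have : D.key a w ≤ D.key a u := by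
          by_contra hcon
          rw [not_le] at hcon
          exact ha u hcon hu
        exact x.2.1 a w u this (hJx a)
      have hwall : IsWall D a y.1 w := ⟨hJy a, ha⟩
      have hwall' : IsWall D a x.1 w := ⟨hJx a, fun u hu => hJ ▸ ha u hu⟩
      have n1 : ¬ ∃ v, IsWall D a y.1 v ∧ (Sum.inl v : X I W) ∈ y.1 := by
        rintro ⟨v, hv, hvy⟩
        rw [wall_unique D hv hwall] at hvy
        exact hwy hvy
      have n2 : ∃ v, IsWall D a x.1 v ∧ (Sum.inl v : X I W) ∈ x.1 := ⟨w, hwall', hwx⟩
      unfold kap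
      rw [if_pos n2, if_neg n1, hJ]
      omega
    · right
      exact ⟨w, h, ⟨hJx, fun a u hu hux => hbx a u hu (h a hux)⟩, ⟨hJy, hbx⟩, hwx, hwy⟩

/-- two box letters of one state are adjacent -/
theorem bt_adj' {A : Set (X I W)} {v u : W} (hv : v ∈ Bt D A) (hu : u ∈ Bt D A) (hne : v ≠ u) :
    D.Adj v u :=
  ⟨hne, fun a => ⟨fun h => hu.2 a v h (hv.1 a), fun h => hv.2 a u h (hu.1 a)⟩⟩

theorem bt_card [Finite W] (htri : ∀ u v w, D.Adj u v → D.Adj v w → D.Adj u w → False)
    (A : Set (X I W)) : (Bt D A).ncard ≤ 2 := by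
  by_contra hcon
  rw [not_le] at hcon
  obtain ⟨u, v, w, hu, hv, hw, huv, huw, hvw⟩ := (Set.two_lt_ncard_iff (Set.toFinite _)).1 hcon
  exact htri u v w (bt_adj' D hu hv huv) (bt_adj' D hv hw hvw) (bt_adj' D hu hw huw)

open Classical in
/-- The local dimension is at most `|I| + 2`. -/
theorem localDimLE [Finite W] [Fintype I] [Nonempty I]
    (htri : ∀ u v w, D.Adj u v → D.Adj v w → D.Adj u w → False) :
    LocalDimLE D.closed (Fintype.card I + 2) := by
  let S : I ⊕ W → Set D.closed :=
    fun i => Sum.elim (fun _ => Set.univ) (fun w => {x | w ∈ Bt D x.1}) i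
  let g : I ⊕ W → D.closed → ℕ := fun i x =>
    Sum.elim (fun a => kap D a x) (fun w => if (Sum.inl w : X I W) ∈ x.1 then 1 else 0) i
  have hg : ∀ i, ∀ x ∈ S i, ∀ y ∈ S i, x ≤ y → g i x ≤ g i y := by
    intro i x _ y _ hxy
    rcases i with a | w
    · exact kap_mono D a hxy
    · simp only [g, Sum.elim_inr]
      split_ifs with h1 h2
      · exact le_rfl
      · exact absurd (hxy h1) h2
      · exact Nat.zero_le _
      · exact le_rfl
  refine Pool.Agent.H984R3.Geom.localDimLE_of S (fun i x y =>
      toLex (g i x, toLinearExtension x) ≤ toLex (g i y, toLinearExtension y))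
      (fun i => Pool.Agent.H984R3.Geom.ple_of (S i) (g i) (hg i)) ?_ ?_ ?_
  · intro x y hxy
    rcases dich D hxy with ⟨a, ha⟩ | ⟨w, -, h1, h2, h3, h4⟩
    · refine ⟨Sum.inl a, Set.mem_univ _, Set.mem_univ _, ?_⟩
      rw [Prod.Lex.toLex_le_toLex]
      exact Or.inl ha
    · refine ⟨Sum.inr w, h1, h2, ?_⟩
      rw [Prod.Lex.toLex_le_toLex]
      left
      simp only [g, Sum.elim_inr]
      rw [if_pos h3, if_neg h4]
      exact Nat.zero_lt_one
  · intro x y hxy
    obtain ⟨a⟩ := (inferInstance : Nonempty I)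
    refine ⟨Sum.inl a, Set.mem_univ _, Set.mem_univ _, ?_⟩
    exact (Pool.Agent.H984R3.Geom.ple_of (S (Sum.inl a)) (g (Sum.inl a))
      (hg (Sum.inl a))).2.2.2.2 x (Set.mem_univ _) y (Set.mem_univ _) hxy.le
  · intro x
    have e1 : {i : I ⊕ W | x ∈ S i} ⊆ Sum.inl '' (Set.univ : Set I) ∪
        Sum.inr '' (Bt D x.1) := by
      intro i hi
      rcases i with a | w
      · exact Or.inl ⟨a, Set.mem_univ _, rfl⟩
      · exact Or.inr ⟨w, hi, rfl⟩
    refine (Set.ncard_le_ncard e1 (Set.toFinite _)).trans ?_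
    refine (Set.ncard_union_le _ _).trans ?_
    rw [Set.ncard_image_of_injective _ Sum.inl_injective,
      Set.ncard_image_of_injective _ Sum.inr_injective, Set.ncard_univ, Nat.card_eq_fintype_card]
    have := bt_card D htri x.1
    omega

/-! ### Boolean dimension -/

/-- the linear order given by a key, ties broken by a fixed linear extension -/
@[instance_reducible] noncomputable def extOrder {P : Type} [PartialOrder P] (g : P → ℕ) :
    LinearOrder P :=
  LinearOrder.lift' (fun x => toLex (g x, toLinearExtension x))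
    (fun _ _ h => congrArg (fun z => (ofLex z).2) h)

theorem extOrder_lt {P : Type} [PartialOrder P] (g : P → ℕ) (x y : P) :
    (extOrder g).lt x y ↔
      g x < g y ∨ (g x = g y ∧ toLinearExtension x < toLinearExtension y) := by
  change toLex (g x, toLinearExtension x) < toLex (g y, toLinearExtension y) ↔ _
  rw [Prod.Lex.toLex_lt_toLex]

theorem ext_lt {P : Type} [PartialOrder P] {x y : P} (h : x < y) :
    toLinearExtension x < toLinearExtension y :=
  lt_of_le_of_ne (toLinearExtension.monotone h.le) (fun e => h.ne e)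

theorem boolean_of {P : Type} [PartialOrder P] {ι : Type} [Fintype ι] (L : ι → LinearOrder P)
    (φ : (ι → Prop) → Prop) (h : ∀ x y : P, x ≠ y → (x < y ↔ φ (fun i => (L i).lt x y))) :
    BooleanDimLE P (Fintype.card ι) := by
  let e := Fintype.equivFin ι
  refine ⟨Fintype.card ι, le_rfl, fun j => L (e.symm j), fun s => φ (fun i => s (e i)), ?_⟩
  intro x y hxy
  rw [h x y hxy]
  have : (fun i => (L i).lt x y) = fun i => (L (e.symm (e i))).lt x y := by
    funext i
    rw [Equiv.symm_apply_apply]
  rw [this]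

open Classical in
/-- The Boolean dimension is at most `|I| + 4` if every path on which an injective index
increases joins letters which are far from each other in both directions. -/
theorem booleanDimLE [Finite W] [Nonempty W] [Fintype I]
    (idx : W → ℕ) (hidx : Function.Injective idx)
    (H : ∀ u v w, D.Adj u v → D.Adj v w → idx u < idx v → idx v < idx w →
      (∃ a, D.ll a u w) ∧ (∃ b, D.ll b w u))
    (htri : ∀ u v w, D.Adj u v → D.Adj v w → D.Adj u w → False) :
    BooleanDimLE D.closed (Fintype.card I + 4) := by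
  have := Fintype.ofFinite W
  obtain ⟨N, hN⟩ : ∃ N, ∀ w, idx w < N := by
    obtain ⟨w0, hw0⟩ := Finite.exists_max idx
    exact ⟨idx w0 + 1, fun w => Nat.lt_succ_of_le (hw0 w)⟩
  -- the two box letters
  have hb : ∀ x : D.closed, (Bt D x.1).Nonempty → ∃ p : W × W,
      p.1 ∈ Bt D x.1 ∧ p.2 ∈ Bt D x.1 ∧ (∀ w ∈ Bt D x.1, w = p.1 ∨ w = p.2) ∧
      idx p.1 ≤ idx p.2 := by
    intro x hx
    obtain ⟨w1, hw1, hmin⟩ := Set.exists_min_image (Bt D x.1) idx (Set.toFinite _) hx
    obtain ⟨w2, hw2, hmax⟩ := Set.exists_max_image (Bt D x.1) idx (Set.toFinite _) hx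
    refine ⟨(w1, w2), hw1, hw2, ?_, hmin w2 hw2⟩
    intro w hw
    by_contra hcon
    push Not at hcon
    have h12 : w1 ≠ w2 := by
      intro h
      have h3 := hmin w hw
      have h4 := hmax w hw
      rw [← h] at h4
      exact hcon.1 (hidx (le_antisymm h4 h3))
    exact htri w w1 w2 (bt_adj' D hw hw1 hcon.1) (bt_adj' D hw1 hw2 h12)
      (bt_adj' D hw hw2 hcon.2)
  choose! p hp1 hp2 hp3 hp4 using hb
  let b : Bool → D.closed → W := fun i x => if i then (p x).1 else (p x).2
  have hbmem : ∀ i x, (Bt D x.1).Nonempty → b i x ∈ Bt D x.1 := by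
    intro i x hx
    cases i
    · exact hp2 x hx
    · exact hp1 x hx
  -- index of a box letter, and its presence
  let cc : Bool → D.closed → ℕ := fun i x => if (Bt D x.1).Nonempty then idx (b i x) + 1 else 0
  let bb : Bool → D.closed → ℕ := fun i x =>
    if (Bt D x.1).Nonempty ∧ (Sum.inl (b i x) : X I W) ∈ x.1 then 1 else 0
  have hcc : ∀ i x, cc i x ≤ N := by
    intro i x
    simp only [cc]
    split_ifs
    · exact hN _
    · exact Nat.zero_le _
  have hbb : ∀ i x, bb i x ≤ 1 := by
    intro i x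
    simp only [bb]
    split_ifs <;> omega
  let g : I ⊕ (Bool × Bool) → D.closed → ℕ := fun i x =>
    Sum.elim (fun a => kap D a x) (fun q => if q.2 then 2 * cc q.1 x + bb q.1 x
      else 2 * (N - cc q.1 x) + bb q.1 x) i
  have gT : ∀ i x, g (Sum.inr (i, true)) x = 2 * cc i x + bb i x := fun _ _ => rfl
  have gF : ∀ i x, g (Sum.inr (i, false)) x = 2 * (N - cc i x) + bb i x := fun _ _ => rfl
  have gA : ∀ a x, g (Sum.inl a) x = kap D a x := fun _ _ => rfl
  have key : ∀ x y : D.closed, x ≠ y → (x < y ↔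
      (∀ a, (extOrder (g (Sum.inl a))).lt x y) ∧
      ∀ i, (extOrder (g (Sum.inr (i, true)))).lt x y ∨
        (extOrder (g (Sum.inr (i, false)))).lt x y) := by
    intro x y hne
    constructor
    · intro hxy
      have hext := ext_lt hxy
      refine ⟨?_, ?_⟩
      · intro a
        rw [extOrder_lt]
        rw [gA, gA]
        rcases (kap_mono D a hxy.le).lt_or_eq with h | h
        · exact Or.inl h
        · exact Or.inr ⟨h, hext⟩
      · intro i
        rw [extOrder_lt, extOrder_lt]
        rw [gT, gT, gF, gF]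
        have h1 := hcc i x
        have h2 := hcc i y
        have h3 := hbb i x
        have h4 := hbb i y
        rcases lt_trichotomy (cc i x) (cc i y) with h | h | h
        · left; left; omega
        · have hle : bb i x ≤ bb i y := by
            simp only [bb]
            by_cases h5 : (Bt D x.1).Nonempty ∧ (Sum.inl (b i x) : X I W) ∈ x.1
            · rw [if_pos h5]
              simp only [cc] at h
              rw [if_pos h5.1] at h
              have hy : (Bt D y.1).Nonempty := by
                by_contra hcon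
                rw [if_neg hcon] at h
                omega
              rw [if_pos hy] at h
              have hbe : b i x = b i y := hidx (by omega)
              rw [if_pos ⟨hy, hbe ▸ hxy.le h5.2⟩]
            · rw [if_neg h5]
              exact Nat.zero_le _
          rcases hle.lt_or_eq with h6 | h6
          · left; left; omega
          · left; right
            exact ⟨by omega, hext⟩
        · right; left; omega
    · rintro ⟨hA, hB⟩
      by_contra hcon
      have hnle : ¬ x ≤ y := fun h => hcon (lt_of_le_of_ne h hne)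
      rcases dich D hnle with ⟨a, ha⟩ | ⟨w, hJ, hwx, hwy, hx, hy⟩
      · have := hA a
        rw [extOrder_lt] at this
        rw [gA, gA] at this
        omega
      · have hnx : (Bt D x.1).Nonempty := ⟨w, hwx⟩
        have hny : (Bt D y.1).Nonempty := ⟨w, hwy⟩
        have hi : ∃ i, b i x = w ∧ b i y = w := by
          by_contra hcon
          push Not at hcon
          have hno : ∀ v ∈ Bt D x.1, ∀ u ∈ Bt D y.1, ∀ a, ¬ D.ll a v u :=
            fun v hv u hu a h => hu.2 a v h (hJ a (hv.1 a))
          have ht := hcon true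
          have hf := hcon false
          have hx3 := hp3 x hnx w hwx
          have hy3 := hp3 y hny w hwy
          have hx4 := hp4 x hnx
          have hy4 := hp4 y hny
          simp only [b, if_true, Bool.false_eq_true, if_false] at ht hf
          rcases hx3 with hx3 | hx3
          · have hy1 : (p y).1 ≠ w := ht hx3.symm
            have hy2 : w = (p y).2 := hy3.resolve_left (fun h => hy1 h.symm)
            have hx2 : (p x).2 ≠ w := fun h => hf h hy2.symm
            have l1 : idx (p y).1 < idx w := lt_of_le_of_ne (by rw [hy2]; exact hy4)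
              (fun e => hy1 (hidx e))
            have l2 : idx w < idx (p x).2 := lt_of_le_of_ne (by
              conv_lhs => rw [hx3]
              exact hx4) (fun e => hx2 (hidx e.symm))
            obtain ⟨-, a, ha⟩ := H _ _ _ (bt_adj' D (hp1 y hny) hwy hy1)
              (bt_adj' D hwx (hp2 x hnx) hx2.symm) l1 l2
            exact hno _ (hp2 x hnx) _ (hp1 y hny) a ha
          · have hy2 : (p y).2 ≠ w := hf hx3.symm
            have hy1 : w = (p y).1 := hy3.resolve_right (fun h => hy2 h.symm)
            have hx1 : (p x).1 ≠ w := fun h => ht h hy1.symm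
            have l1 : idx (p x).1 < idx w := lt_of_le_of_ne (by
              conv_rhs => rw [hx3]
              exact hx4) (fun e => hx1 (hidx e))
            have l2 : idx w < idx (p y).2 := lt_of_le_of_ne (by
              conv_lhs => rw [hy1]
              exact hy4) (fun e => hy2 (hidx e.symm))
            obtain ⟨⟨a, ha⟩, -⟩ := H _ _ _ (bt_adj' D (hp1 x hnx) hwx hx1)
              (bt_adj' D hwy (hp2 y hny) hy2.symm) l1 l2
            exact hno _ (hp1 x hnx) _ (hp2 y hny) a ha
        obtain ⟨i, hix, hiy⟩ := hi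
        have h3 := hB i
        rw [extOrder_lt, extOrder_lt] at h3
        rw [gT, gT, gF, gF] at h3
        have e1 : cc i x = cc i y := by
          simp only [cc]
          rw [if_pos hnx, if_pos hny, hix, hiy]
        have e2 : bb i x = 1 := by
          simp only [bb]
          rw [if_pos ⟨hnx, hix ▸ hx⟩]
        have e3 : bb i y = 0 := by
          simp only [bb]
          rw [if_neg]
          rintro ⟨_, h4⟩
          rw [hiy] at h4
          exact hy h4
        rw [e1, e2, e3] at h3
        omega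
  have hcard : Fintype.card (I ⊕ (Bool × Bool)) = Fintype.card I + 4 := by
    simp only [Fintype.card_sum, Fintype.card_prod, Fintype.card_bool]
  rw [← hcard]
  exact boolean_of (fun i => extOrder (g i))
    (fun s => (∀ a, s (Sum.inl a)) ∧ ∀ i, s (Sum.inr (i, true)) ∨ s (Sum.inr (i, false))) key

/-! ### Standard examples -/

theorem standardExample_le [Finite W] [Fintype I]
    (htri : ∀ u v w, D.Adj u v → D.Adj v w → D.Adj u w → False) {n : ℕ}
    (hn : HasStandardExample D.closed n) : n ≤ Fintype.card I + 2 := by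
  classical
  obtain ⟨a, b, hab⟩ := hn
  let T : Set (Fin n) := {i | ∃ c, kap D c (b i) < kap D c (a i)}
  have hT : ∀ i : T, ∃ c, kap D c (b i) < kap D c (a i) := fun i => i.2
  choose c hc using hT
  have hinj : Function.Injective c := by
    intro i j hij
    by_contra hne
    have hne' : (i : Fin n) ≠ j := fun h => hne (Subtype.ext h)
    have h1 := hc i
    have h2 := hc j
    rw [← hij] at h2
    have h3 := kap_mono D (c i) ((hab i j).2 hne')
    have h4 := kap_mono D (c i) ((hab j i).2 hne'.symm)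
    omega
  have hTc : T.ncard ≤ Fintype.card I := by
    rw [← Nat.card_coe_set_eq, Nat.card_eq_fintype_card]
    exact Fintype.card_le_of_injective c hinj
  have hw : ∀ i : (Tᶜ : Set (Fin n)), ∃ w, w ∈ Bt D (a i).1 ∧ w ∈ Bt D (b i).1 ∧
      (Sum.inl w : X I W) ∈ (a i).1 ∧ (Sum.inl w : X I W) ∉ (b i).1 := by
    rintro ⟨i, hi⟩
    have hnle : ¬ a i ≤ b i := fun h => (hab i i).1 h rfl
    rcases dich D hnle with h | ⟨w, -, h⟩
    · exact absurd h hi
    · exact ⟨w, h⟩
  choose w hw1 hw2 hw3 hw4 using hw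
  have hadj : ∀ i j : (Tᶜ : Set (Fin n)), (i : Fin n) ≠ j → D.Adj (w i) (w j) := by
    intro i j hij
    have hsub1 : (a i).1 ⊆ (b j).1 := (hab i j).2 hij
    have hsub2 : (a j).1 ⊆ (b i).1 := (hab j i).2 hij.symm
    refine ⟨?_, fun e => ⟨?_, ?_⟩⟩
    · intro h
      apply hw4 j
      rw [← h]
      exact hsub1 (hw3 i)
    · intro h
      exact (hw2 j).2 e (w i) h (J_mono hsub1 ((hw1 i).1 e))
    · intro h
      exact (hw2 i).2 e (w j) h (J_mono hsub2 ((hw1 j).1 e))
  have hTc2 : (Tᶜ).ncard ≤ 2 := by
    by_contra hcon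
    rw [not_le] at hcon
    obtain ⟨i, j, l, hi, hj, hl, hij, hil, hjl⟩ :=
      (Set.two_lt_ncard_iff (Set.toFinite _)).1 hcon
    exact htri _ _ _ (hadj ⟨i, hi⟩ ⟨j, hj⟩ hij) (hadj ⟨j, hj⟩ ⟨l, hl⟩ hjl)
      (hadj ⟨i, hi⟩ ⟨l, hl⟩ hil)
  have htot := Set.ncard_add_ncard_compl T
  rw [Nat.card_eq_fintype_card, Fintype.card_fin] at htot
  omega

/-! ### Fractional dimension -/

theorem fracDim_ge {k : ℕ}
    (hk : ∀ (m s : ℕ) (φ : W → Set (Fin m)), (∀ w, s ≤ (φ w).ncard) →
      (∀ v w, D.Adj v w → Disjoint (φ v) (φ w)) → k * s ≤ 2 * m)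
    {t : ℝ} (ht : FracDimLE D.closed t) : (k : ℝ) / 2 ≤ t := by
  obtain ⟨ht1, m, hm, L, hL, hLi⟩ := ht
  have ht0 : 0 < t := by linarith
  have hm0 : (0 : ℝ) < m := by exact_mod_cast hm
  let NN : W → D.closed := fun w => ⟨Nset D w, Nset_closed D w⟩
  let KK : W → D.closed := fun w => ⟨Kset D w, Kset_closed D w⟩
  have hne : ∀ w, ¬ NN w ≤ KK w := fun w => not_Nset_subset_Kset D w
  let φ : W → Set (Fin m) := fun w => {i | ¬ L i (NN w) (KK w)}
  have hφ : ∀ w, (m : ℝ) / t ≤ ((φ w).ncard : ℝ) := by
    intro w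
    have hsub : {i : Fin m | L i (KK w) (NN w)} ⊆ φ w := by
      intro i hi h
      obtain ⟨-, hanti, -, -, -⟩ := hL i
      exact hne w (le_of_eq (hanti _ (Set.mem_univ _) _ (Set.mem_univ _) h hi))
    have hle : ({i : Fin m | L i (KK w) (NN w)}.ncard : ℝ) ≤ ((φ w).ncard : ℝ) := by
      exact_mod_cast Set.ncard_le_ncard hsub (Set.toFinite _)
    rw [div_le_iff₀ ht0]
    by_cases hcomp : KK w ≤ NN w
    · have hall : {i : Fin m | L i (KK w) (NN w)} = Set.univ := by
        ext i
        simp only [Set.mem_ofPred_eq, Set.mem_univ, iff_true]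
        obtain ⟨-, -, -, -, hext⟩ := hL i
        exact hext _ (Set.mem_univ _) _ (Set.mem_univ _) hcomp
      rw [hall, Set.ncard_univ, Nat.card_eq_fintype_card, Fintype.card_fin] at hle
      nlinarith
    · have := hLi (KK w) (NN w) hcomp (hne w)
      nlinarith
  have hdis : ∀ v w, D.Adj v w → Disjoint (φ v) (φ w) := by
    intro v w hadj
    rw [Set.disjoint_left]
    intro i hv hw
    obtain ⟨-, -, htrans, htotal, hext⟩ := hL i
    have hadj' : D.Adj w v := ⟨hadj.1.symm, fun a => ⟨(hadj.2 a).2, (hadj.2 a).1⟩⟩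
    have e1 : L i (NN w) (KK v) :=
      hext _ (Set.mem_univ _) _ (Set.mem_univ _) (Nset_subset_Kset D hadj)
    have e2 : L i (NN v) (KK w) :=
      hext _ (Set.mem_univ _) _ (Set.mem_univ _) (Nset_subset_Kset D hadj')
    have e3 : L i (KK w) (NN w) :=
      (htotal _ (Set.mem_univ _) _ (Set.mem_univ _)).resolve_right hw
    have := htrans _ (Set.mem_univ _) _ (Set.mem_univ _) _ (Set.mem_univ _) e2 e3
    exact hv (htrans _ (Set.mem_univ _) _ (Set.mem_univ _) _ (Set.mem_univ _) this e1)
  have h1 := hk m ⌈(m : ℝ) / t⌉₊ φ (fun w => Nat.ceil_le.2 (hφ w)) hdis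
  have h2 : (m : ℝ) / t ≤ (⌈(m : ℝ) / t⌉₊ : ℝ) := Nat.le_ceil _
  have h3 : (k : ℝ) * (⌈(m : ℝ) / t⌉₊ : ℝ) ≤ 2 * m := by exact_mod_cast h1
  have h4 : (k : ℝ) * ((m : ℝ) / t) ≤ 2 * m :=
    le_trans (mul_le_mul_of_nonneg_left h2 (Nat.cast_nonneg k)) h3
  have h5 : (k : ℝ) * m ≤ 2 * m * t := by
    have := mul_le_mul_of_nonneg_right h4 ht0.le
    have e : (k : ℝ) * ((m : ℝ) / t) * t = k * m := by
      field_simp
    linarith
  have h6 : (k : ℝ) * m ≤ (2 * t) * m := by linarith
  have h7 : (k : ℝ) ≤ 2 * t := le_of_mul_le_mul_right h6 hm0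
  linarith

end Pool.Agent.Y350.CG
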