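import Mathlib
import Pool.Agent.H984R3.Burl2

/-!
# Triangle-free families of boxes of large fractional chromatic number

(helper350) The configurations of `Pool/Agent/H984R3/Burl2` with three additions: every fractional
colouring shows a total measure at least `k / 2` at some probe; the number of boxes is at most
`2 ^ 2 ^ k`; along every path on which the upper face goes down, the last box lies strictly below
the first one.
-/

namespace Pool.Agent.H984R3.Burl

/-- Control of the vertical direction. -/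
structure Conf.ZGood {W R : Type} (c : Conf W R) : Prop where
  zne : ∀ u v, u ≠ v → (c.bx u).Meets (c.bx v) → (c.bx u).z1 ≠ (c.bx v).z1
  zz : ∀ u v w, u ≠ v → v ≠ w → (c.bx u).Meets (c.bx v) → (c.bx v).Meets (c.bx w) →
    (c.bx w).z1 < (c.bx v).z1 → (c.bx v).z1 < (c.bx u).z1 → (c.bx w).z1 < (c.bx u).z0
  zp : ∀ q v w, v ∈ c.C q → v ≠ w → (c.bx v).Meets (c.bx w) → (c.bx w).z1 < (c.bx v).z1 →
    (c.bx w).z1 < (c.pb q).z0

theorem zgood_inner {W R : Type} {c : Conf W R} (h : c.ZGood) : (inner c).ZGood := by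
  have kf : ∀ w, (flat (c.bx w)).z1 ≤ 1 / 2 := by
    intro w
    obtain ⟨v1, v2, v3, v4, v5, v6, v7, v8, v9⟩ := c.unit w
    simp only [flat]
    linarith
  have kd : ∀ q, (dbox (c.pb q)).z1 = 7 / 8 := fun q => rfl
  have k1 : ∀ q r : R, q ≠ r → ¬ (dbox (c.pb q)).Meets (dbox (c.pb r)) :=
    fun q r h => not_meets_of_ysep (dbox_ysep c h)
  refine ⟨?_, ?_, ?_⟩
  · rintro (u | p) (v | q) hne hm e
    · refine h.zne u v (fun e => hne (by rw [e])) (flat_meets.1 hm) ?_
      have e' : (c.bx u).z1 / 2 = (c.bx v).z1 / 2 := e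
      linarith
    · have h1 := kf u
      have h2 : (flat (c.bx u)).z1 = (dbox (c.pb q)).z1 := e
      rw [kd] at h2
      linarith
    · have h1 := kf v
      have h2 : (dbox (c.pb p)).z1 = (flat (c.bx v)).z1 := e
      rw [kd] at h2
      linarith
    · exact k1 p q (fun e => hne (by rw [e])) hm
  · rintro (u | p) (v | q) (w | r) h1 h2 m1 m2 l1 l2
    · have l1' : (c.bx w).z1 / 2 < (c.bx v).z1 / 2 := l1
      have l2' : (c.bx v).z1 / 2 < (c.bx u).z1 / 2 := l2
      have := h.zz u v w (fun e => h1 (by rw [e])) (fun e => h2 (by rw [e]))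
        (flat_meets.1 m1) (flat_meets.1 m2) (by linarith) (by linarith)
      change (c.bx w).z1 / 2 < (c.bx u).z0 / 2
      linarith
    · have l1' : (dbox (c.pb r)).z1 < (flat (c.bx v)).z1 := l1
      rw [kd] at l1'
      have := kf v
      linarith
    · have l2' : (dbox (c.pb q)).z1 < (flat (c.bx u)).z1 := l2
      rw [kd] at l2'
      have := kf u
      linarith
    · have l2' : (dbox (c.pb q)).z1 < (flat (c.bx u)).z1 := l2
      rw [kd] at l2'
      have := kf u
      linarith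
    · have l1' : (c.bx w).z1 / 2 < (c.bx v).z1 / 2 := l1
      have hv : v ∈ c.C p := (dbox_meets c p v).1 m1
      have := h.zp p v w hv (fun e => h2 (by rw [e])) (flat_meets.1 m2) (by linarith)
      change (c.bx w).z1 / 2 < (c.pb p).z0 / 2
      linarith
    · have l1' : (dbox (c.pb r)).z1 < (flat (c.bx v)).z1 := l1
      rw [kd] at l1'
      have := kf v
      linarith
    · exact absurd m1 (k1 p q (fun e => h1 (by rw [e])))
    · exact absurd m1 (k1 p q (fun e => h1 (by rw [e])))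
  · rintro (q | q) (v | r) (w | s) hv hne hm l
    · rw [show ((inner c).C (Sum.inl q)) = iC c (Sum.inl q) from rfl, mem_iC_ll] at hv
      have l' : (c.bx w).z1 / 2 < (c.bx v).z1 / 2 := l
      have := h.zp q v w hv (fun e => hne (by rw [e])) (flat_meets.1 hm) (by linarith)
      change (c.bx w).z1 / 2 < (c.pb q).z0 / 2
      linarith
    · have l' : (dbox (c.pb s)).z1 < (flat (c.bx v)).z1 := l
      rw [kd] at l'
      have := kf v
      linarith
    · exact hv.elim
    · exact hv.elim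
    · exact hv.elim
    · exact hv.elim
    · have := kf w
      change (flat (c.bx w)).z1 < 5 / 8
      linarith
    · exact absurd hm (k1 r s (fun e => hne (by rw [e])))

theorem zgood_compose {W R V S : Type} {c : Conf W R} {d : Conf V S} (h : c.ZGood)
    (h' : d.ZGood) : (compose c d).ZGood := by
  have key : ∀ (p q : R) (v v' : V), (place (c.pb p) (d.bx v)).Meets (place (c.pb q) (d.bx v')) →
      p = q := by
    intro p q v v' hm
    by_contra hpq
    exact not_meets_of_ysep (ysep_inside (c.ysep p q hpq)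
      (place_inside (c.punit p) (d.unit v)) (place_inside (c.punit q) (d.unit v'))) hm
  have k1 : ∀ (w : W) (q : R) (v : V), ¬ (c.bx w).Meets (place (c.pb q) (d.bx v)) :=
    fun w q v => not_meets_inside c q w (place_inside (c.punit q) (d.unit v))
  have k2 : ∀ (w : W) (q : R) (v : V), ¬ (place (c.pb q) (d.bx v)).Meets (c.bx w) :=
    fun w q v hm => k1 w q v hm.symm
  have zl : ∀ p (A B : ℚ), aff (c.pb p).z0 (c.pb p).z1 A < aff (c.pb p).z0 (c.pb p).z1 B ↔ A < B :=
    fun p A B => aff_lt (c.punit p).2.2.2.2.2.2.2.1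
  refine ⟨?_, ?_, ?_⟩
  · rintro (u | ⟨p, u⟩) (v | ⟨q, v⟩) hne hm e
    · exact h.zne u v (fun e => hne (by rw [e])) hm e
    · exact k1 _ _ _ hm
    · exact k2 _ _ _ hm
    · have e1 := key p q u v hm
      subst e1
      refine h'.zne u v (fun e => hne (by rw [e])) ((place_meets (c.punit _)).1 hm) ?_
      have e' : aff (c.pb p).z0 (c.pb p).z1 (d.bx u).z1 =
        aff (c.pb p).z0 (c.pb p).z1 (d.bx v).z1 := e
      by_contra hcon
      rcases lt_or_gt_of_ne hcon with hlt | hlt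
      · exact absurd e' (ne_of_lt ((zl p _ _).2 hlt))
      · exact absurd e' (ne_of_gt ((zl p _ _).2 hlt))
  · rintro (u | ⟨p, u⟩) (v | ⟨q, v⟩) (w | ⟨r, w⟩) h1 h2 m1 m2 l1 l2
    · exact h.zz u v w (fun e => h1 (by rw [e])) (fun e => h2 (by rw [e])) m1 m2 l1 l2
    · exact absurd m2 (k1 _ _ _)
    · exact absurd m1 (k1 _ _ _)
    · exact absurd m1 (k1 _ _ _)
    · exact absurd m1 (k2 _ _ _)
    · exact absurd m1 (k2 _ _ _)
    · exact absurd m2 (k2 _ _ _)
    · have e1 := key p q u v m1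
      subst e1
      have e2 := key p r v w m2
      subst e2
      refine (zl p _ _).2 (h'.zz u v w (fun e => h1 (by rw [e])) (fun e => h2 (by rw [e]))
        ((place_meets (c.punit _)).1 m1) ((place_meets (c.punit _)).1 m2)
        ((zl p _ _).1 l1) ((zl p _ _).1 l2))
  · rintro ⟨p, s⟩ (v | ⟨q, v⟩) (w | ⟨r, w⟩) hv hne hm l
    · have hv' : v ∈ c.C p := hv
      have := h.zp p v w hv' (fun e => hne (by rw [e])) hm l
      obtain ⟨a1, a2, a3, a4, a5, a6, a7, a8, a9⟩ := place_inside (c.punit p) (d.punit s).unit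
      exact lt_of_lt_of_le this a7
    · exact absurd hm (k1 _ _ _)
    · exact absurd hm (k2 _ _ _)
    · have e1 := key q r v w hm
      subst e1
      obtain ⟨e2, hv'⟩ : q = p ∧ v ∈ d.C s := hv
      subst e2
      exact (zl q _ _).2 (h'.zp s v w hv' (fun e => hne (by rw [e]))
        ((place_meets (c.punit _)).1 hm) ((zl q _ _).1 l))

theorem zgood_base : base.ZGood :=
  ⟨fun u => u.elim, fun u => u.elim, fun _ u => u.elim⟩

/-! ### Fractional colourings -/

/-- every fractional colouring shows a total measure at least `k / 2` at some probe -/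
def Conf.FRich {W R : Type} (c : Conf W R) (k : ℕ) : Prop :=
  ∀ (m s : ℕ) (φ : W → Set (Fin m)), (∀ w, s ≤ (φ w).ncard) →
    (∀ v w, v ≠ w → (c.bx v).Meets (c.bx w) → Disjoint (φ v) (φ w)) →
    ∃ p, k * s ≤ 2 * {i | ∃ w ∈ c.C p, i ∈ φ w}.ncard

theorem frich_step {W R : Type} (c : Conf W R) {k : ℕ} (h : c.FRich k) :
    (compose c (inner c)).FRich (k + 1) := by
  intro m s φ hs hφ
  obtain ⟨p, hp⟩ := h m s (fun w => φ (Sum.inl w)) (fun w => hs _) (by
    intro v w hvw hm
    exact hφ (Sum.inl v) (Sum.inl w) (fun e => hvw (Sum.inl_injective e)) hm)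
  obtain ⟨q, hq⟩ := h m s (fun w => φ (Sum.inr (p, Sum.inl w))) (fun w => hs _) (by
    intro v w hvw hm
    refine hφ (Sum.inr (p, Sum.inl v)) (Sum.inr (p, Sum.inl w)) (fun e => hvw ?_) ?_
    · simpa using e
    · exact (place_meets (c.punit p)).2 (flat_meets.2 hm))
  set A : Set (Fin m) := {i | ∃ w ∈ c.C p, i ∈ φ (Sum.inl w)} with hA
  set B : Set (Fin m) := {i | ∃ w ∈ c.C q, i ∈ φ (Sum.inr (p, Sum.inl w))} with hB
  set E : Set (Fin m) := φ (Sum.inr (p, Sum.inr q)) with hE
  have hEs : s ≤ E.ncard := hs _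
  have hBE : Disjoint B E := by
    rw [Set.disjoint_left]
    rintro i ⟨w, hw, hi⟩ hiE
    have hd := hφ (Sum.inr (p, Sum.inl w)) (Sum.inr (p, Sum.inr q)) (by simp)
      ((place_meets (c.punit p)).2 ((dbox_meets c q w).2 hw)).symm
    exact Set.disjoint_left.1 hd hi hiE
  have h1 : A ∪ B ⊆ {i | ∃ w ∈ (compose c (inner c)).C (p, Sum.inl q), i ∈ φ w} := by
    rintro i (⟨w, hw, hi⟩ | ⟨w, hw, hi⟩)
    · exact ⟨Sum.inl w, hw, hi⟩
    · exact ⟨Sum.inr (p, Sum.inl w), ⟨rfl, hw⟩, hi⟩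
  have h2 : A ∪ E ⊆ {i | ∃ w ∈ (compose c (inner c)).C (p, Sum.inr q), i ∈ φ w} := by
    rintro i (⟨w, hw, hi⟩ | hi)
    · exact ⟨Sum.inl w, hw, hi⟩
    · exact ⟨Sum.inr (p, Sum.inr q), ⟨rfl, rfl⟩, hi⟩
  have n1 := Set.ncard_le_ncard h1 (Set.toFinite _)
  have n2 := Set.ncard_le_ncard h2 (Set.toFinite _)
  have n3 := Set.ncard_union_add_ncard_inter (A ∪ B) (A ∪ E) (Set.toFinite _) (Set.toFinite _)
  have n4 : (B ∪ E).ncard ≤ ((A ∪ B) ∪ (A ∪ E)).ncard := by
    refine Set.ncard_le_ncard ?_ (Set.toFinite _)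
    rintro i (hi | hi)
    · exact Or.inl (Or.inr hi)
    · exact Or.inr (Or.inr hi)
  have n5 : A.ncard ≤ ((A ∪ B) ∩ (A ∪ E)).ncard :=
    Set.ncard_le_ncard (fun i hi => ⟨Or.inl hi, Or.inl hi⟩) (Set.toFinite _)
  have n6 : (B ∪ E).ncard = B.ncard + E.ncard := Set.ncard_union_eq hBE (Set.toFinite _) (Set.toFinite _)
  have n7 : (k + 1) * s = k * s + s := by ring
  by_cases hcase : (k + 1) * s ≤ 2 * (A ∪ B).ncard
  · exact ⟨(p, Sum.inl q), by omega⟩
  · exact ⟨(p, Sum.inr q), by omega⟩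

theorem frich_base : base.FRich 0 := fun _ _ _ _ _ => ⟨(), by omega⟩

/-- All properties together. -/
theorem exists_all (k : ℕ) : ∃ (W R : Type) (_ : Finite W) (_ : Finite R) (c : Conf W R),
    c.Rich k ∧ c.FRich k ∧ c.ZGood ∧ 2 * Nat.card R = 2 ^ 2 ^ k ∧
      Nat.card W + 2 ≤ 2 * Nat.card R := by
  induction k with
  | zero =>
    refine ⟨PEmpty, Unit, inferInstance, inferInstance, base, fun f _ => ⟨(), Nat.zero_le _⟩,
      frich_base, zgood_base, ?_, ?_⟩
    · simp
    · simp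
  | succ k ih =>
    obtain ⟨W, R, hW, hR, c, hc, hf, hz, hr, hw⟩ := ih
    refine ⟨W ⊕ (R × (W ⊕ R)), R × (R ⊕ R), inferInstance, inferInstance, compose c (inner c),
      rich_step c hc, frich_step c hf, zgood_compose hz (zgood_inner hz), ?_, ?_⟩
    · rw [Nat.card_prod, Nat.card_sum]
      have e : (2 : ℕ) ^ 2 ^ (k + 1) = 2 ^ 2 ^ k * 2 ^ 2 ^ k := by
        rw [← pow_add, pow_succ]
        congr 1
        omega
      rw [e, ← hr]
      ring
    · rw [Nat.card_prod, Nat.card_sum, Nat.card_sum, Nat.card_prod, Nat.card_sum]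
      nlinarith

/-- Finite triangle-free families of boxes of large fractional chromatic number. -/
theorem exists_boxesF (k : ℕ) : ∃ (W : Type) (_ : Finite W) (b : W → Box),
    (∀ w, (b w).Unit) ∧
    (∀ u v w, u ≠ v → v ≠ w → u ≠ w → (b u).Meets (b v) → (b v).Meets (b w) →
      ¬ (b u).Meets (b w)) ∧
    (∀ f : W → Fin k, ∃ v w, v ≠ w ∧ (b v).Meets (b w) ∧ f v = f w) ∧
    (∀ (m s : ℕ) (φ : W → Set (Fin m)), (∀ w, s ≤ (φ w).ncard) →
      (∀ v w, v ≠ w → (b v).Meets (b w) → Disjoint (φ v) (φ w)) → (k + 1) * s ≤ 2 * m) ∧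
    (∀ u v, u ≠ v → (b u).Meets (b v) → (b u).z1 ≠ (b v).z1) ∧
    (∀ u v w, u ≠ v → v ≠ w → (b u).Meets (b v) → (b v).Meets (b w) →
      (b w).z1 < (b v).z1 → (b v).z1 < (b u).z1 → (b w).z1 < (b u).z0) ∧
    Nat.card W < 2 ^ 2 ^ (k + 1) := by
  obtain ⟨W, R, hW, hR, c, hc, hf, hz, hr, hw⟩ := exists_all (k + 1)
  refine ⟨W, hW, c.bx, c.unit, c.tri, ?_, ?_, hz.zne, hz.zz, by omega⟩
  · intro f
    by_contra hcon
    push Not at hcon
    obtain ⟨p, hp⟩ := hc (fun w => (f w : ℕ)) (by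
      intro v w hvw hm e
      exact hcon v w hvw hm (Fin.ext e))
    have hsub : (fun w => (f w : ℕ)) '' c.C p ⊆ ((Finset.range k : Finset ℕ) : Set ℕ) := by
      rintro x ⟨w, _, rfl⟩
      simp
    have := Set.ncard_le_ncard hsub (Finset.finite_toSet _)
    rw [Set.ncard_coe_finset, Finset.card_range] at this
    omega
  · intro m s φ hs hφ
    obtain ⟨p, hp⟩ := hf m s φ hs hφ
    have h1 : {i | ∃ w ∈ c.C p, i ∈ φ w}.ncard ≤ m := by
      have := Set.ncard_le_ncard (Set.subset_univ {i | ∃ w ∈ c.C p, i ∈ φ w}) (Set.toFinite _)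
      rwa [Set.ncard_univ, Nat.card_eq_fintype_card, Fintype.card_fin] at this
    omega

end Pool.Agent.H984R3.Burl
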